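import Pool.Agent.H93.PF.TargetsB

/-!
Board pfs_modules (MP_32ebde_an), row GLU: gluing of words without forbidden repetitions.
-/

set_option autoImplicit false

open MeasureTheory Filter Topology Finset Pool.Agent.H93.PF

namespace Pool.Agent.H1.PF

theorem append_lt {A : Type} {i j : ℕ} (u : Fin i → A) (v : Fin j → A) (t : ℕ) (h : t < i + j)
    (ht : t < i) : Fin.append u v ⟨t, h⟩ = u ⟨t, ht⟩ :=
  Fin.append_left u v ⟨t, ht⟩

theorem append_ge {A : Type} {i j : ℕ} (u : Fin i → A) (v : Fin j → A) (t : ℕ)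
    (h : i + t < i + j) : Fin.append u v ⟨i + t, h⟩ = v ⟨t, by omega⟩ :=
  Fin.append_right u v ⟨t, by omega⟩

theorem per_left {A : Type} {i j : ℕ} (u : Fin i → A) (v : Fin j → A) {q k l a b : ℕ}
    (h : Per (Fin.append u v) q k l) (h1 : k ≤ a) (h2 : a + b ≤ k + l) :
    Per u q a b := by
  intro t ht hat htb
  have h3 := h t (by omega) (by omega) (by omega)
  rw [append_lt u v (t + q) _ ht, append_lt u v t _ (by omega)] at h3
  exact h3

theorem per_right {A : Type} {i j : ℕ} (u : Fin i → A) (v : Fin j → A) {q k l a b : ℕ}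
    (h : Per (Fin.append u v) q k l) (h1 : k ≤ i + a) (h2 : i + a + b ≤ k + l) :
    Per v q a b := by
  intro t ht hat htb
  have h3 := h (i + t) (by omega) (by omega) (by omega)
  have h4 : (⟨i + t + q, by omega⟩ : Fin (i + j)) = ⟨i + (t + q), by omega⟩ := by
    apply Fin.ext
    show i + t + q = i + (t + q)
    ring
  rw [h4, append_ge u v (t + q), append_ge u v t] at h3
  exact h3

theorem pf_GLU : T_GLU := by
  intro A m i j u v _ hu hv q s hq hs hper
  by_cases h1 : s + m q ≤ i
  · exact hu.1 q s hq h1 (per_left u v hper le_rfl le_rfl)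
  by_cases h2 : i ≤ s
  · exact hv.1 q (s - i) hq (by omega) (per_right u v hper (by omega) (by omega))
  have hpp : 2 * pp m q ≤ m q + 1 := by
    unfold pp
    omega
  by_cases h3 : pp m q ≤ i - s
  · refine (hu.2 q hq (by omega)).2 (per_left u v hper (by omega) (by omega))
  by_cases h4 : pp m q ≤ s + m q - i
  · exact (hv.2 q hq (by omega)).1 (per_right u v hper (by omega) (by omega))
  omega

end Pool.Agent.H1.PF
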